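import Pool.Agent.H698.HF.Core

set_option autoImplicit false

/-! # Queries that read a memory with values in a tree-like order (helper698)

A nondecreasing condition on a memory `M : Pl → D`, which is determined by the contents of the
places read, becomes a nondecreasing condition on a memory of real numbers. -/

open scoped Classical
open Finset

namespace Pool.Agent.H698.UD

variable {Pl D : Type} [PartialOrder D]

/-- the condition for real memories: the contents of some places, as far as they are known by their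
real numbers to be at least so large, imply the condition -/
def Acc (top : Pl → D) (f : Pl → D → ℝ) (accept : (Pl → D) → Prop) (M' : Pl → ℝ) : Prop :=
  ∃ (S : Set Pl) (M : Pl → D), (∀ c ∈ S, M c ≤ top c ∧ f c (M c) ≤ M' c) ∧
    ∀ M1 : Pl → D, (∀ c ∈ S, M1 c = M c) → accept M1

/-- the places read in a real memory -/
noncomputable def Rd [Fintype Pl] (top : Pl → D) (f : Pl → D → ℝ)
    (reads : (Pl → D) → Finset Pl) (M' : Pl → ℝ) : Finset Pl :=
  if h : ∃ M0 : Pl → D, (∀ c, M0 c ≤ top c) ∧ ∀ c, M' c = f c (M0 c) then reads h.choose else univ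

variable {top : Pl → D} {f : Pl → D → ℝ}

theorem acc_mono {accept : (Pl → D) → Prop} {M' M'' : Pl → ℝ} (h : M' ≤ M'')
    (ha : Acc top f accept M') : Acc top f accept M'' := by
  obtain ⟨S, M, h1, h2⟩ := ha
  exact ⟨S, M, fun c hc => ⟨(h1 c hc).1, (h1 c hc).2.trans (h c)⟩, h2⟩

theorem acc_iff (hf : ∀ c, ∀ x ≤ top c, ∀ y ≤ top c, (x ≤ y ↔ f c x ≤ f c y))
    {accept : (Pl → D) → Prop} (hm : ∀ M M', M ≤ M' → accept M → accept M') {M0 : Pl → D}
    (h0 : ∀ c, M0 c ≤ top c) {R : Finset Pl}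
    (hR : ∀ M1, (∀ c ∈ R, M1 c = M0 c) → (accept M1 ↔ accept M0)) {M'' : Pl → ℝ}
    (h : ∀ c ∈ R, M'' c = f c (M0 c)) : Acc top f accept M'' ↔ accept M0 := by
  constructor
  · rintro ⟨S, M, h1, h2⟩
    have h3 := h2 (fun c => if c ∈ S then M c else M0 c) (fun c hc => if_pos hc)
    have h4 : accept (fun c => if c ∈ R then M0 c else if c ∈ S then M c else M0 c) := by
      refine hm _ _ ?_ h3
      intro c
      dsimp only
      by_cases hc : c ∈ R
      · rw [if_pos hc]
        by_cases hs : c ∈ S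
        · rw [if_pos hs]
          have h5 := h1 c hs
          rw [h c hc] at h5
          exact (hf c _ h5.1 _ (h0 c)).2 h5.2
        · rw [if_neg hs]
      · rw [if_neg hc]
    exact (hR _ (fun c hc => if_pos hc)).1 h4
  · intro ha
    refine ⟨(R : Set Pl), M0, fun c hc => ⟨h0 c, ?_⟩, fun M1 h1 => ?_⟩
    · rw [h c (by exact_mod_cast hc)]
    · exact (hR M1 (fun c hc => h1 c (by exact_mod_cast hc))).2 ha

theorem rd_eq [Fintype Pl] (hf : ∀ c, ∀ x ≤ top c, ∀ y ≤ top c, (x ≤ y ↔ f c x ≤ f c y))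
    (reads : (Pl → D) → Finset Pl) {M0 : Pl → D} (h0 : ∀ c, M0 c ≤ top c) {M' : Pl → ℝ}
    (h : ∀ c, M' c = f c (M0 c)) : Rd top f reads M' = reads M0 := by
  have hex : ∃ M0 : Pl → D, (∀ c, M0 c ≤ top c) ∧ ∀ c, M' c = f c (M0 c) := ⟨M0, h0, h⟩
  have e : hex.choose = M0 := by
    funext c
    have h1 := hex.choose_spec.1 c
    have h2 := hex.choose_spec.2 c
    rw [h c] at h2
    apply le_antisymm
    · exact (hf c _ h1 _ (h0 c)).2 h2.symm.le
    · exact (hf c _ (h0 c) _ h1).2 h2.le
  unfold Rd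
  rw [dif_pos hex, e]

theorem acc_reads [Fintype Pl] (hf : ∀ c, ∀ x ≤ top c, ∀ y ≤ top c, (x ≤ y ↔ f c x ≤ f c y))
    {accept : (Pl → D) → Prop} (hm : ∀ M M', M ≤ M' → accept M → accept M')
    {reads : (Pl → D) → Finset Pl}
    (hR : ∀ M M1, (∀ c ∈ reads M, M1 c = M c) → (accept M1 ↔ accept M)) {M' M'' : Pl → ℝ}
    (h : ∀ c ∈ Rd top f reads M', M'' c = M' c) :
    Acc top f accept M'' ↔ Acc top f accept M' := by
  by_cases hex : ∃ M0 : Pl → D, (∀ c, M0 c ≤ top c) ∧ ∀ c, M' c = f c (M0 c)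
  · obtain ⟨M0, h1, h2⟩ := hex
    rw [rd_eq hf reads h1 h2] at h
    rw [acc_iff hf hm h1 (R := reads M0) (hR M0) (fun c hc => (h c hc).trans (h2 c)),
      acc_iff hf hm h1 (R := reads M0) (hR M0) (fun c _ => h2 c)]
  · have e : M'' = M' := by
      funext c
      refine h c ?_
      unfold Rd
      rw [dif_neg hex]
      exact mem_univ c
    rw [e]

end Pool.Agent.H698.UD
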