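import Pool.Agent.H698.UD.Dec
import Pool.Agent.H698.UA.Up
import Pool.Graph.R_pool_sql_team_seeded_707910d6.T2H60.MH.Main

set_option autoImplicit false

/-! # SetIntersection with partial knowledge about the family (helper698) -/

open scoped Classical
open Finset

namespace Pool.Agent.H698.UD

open Pool.Agent.H698.HF
open Pool.Agent.T2H60.MH (Place FreeDS)
open Pool.Agent.H698.UO (inp)
open Pool.Agent.H698.UA (kand kand_true kand_false kand_mono inp_eq)
open Flat (unknown known)

/-- A data structure for families of `m` subsets of a universe with `n` elements which computes with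
partial knowledge (`P (i, e) = some true`: `e` is known to be in the set `i`, `some false`: known not
to be there, `none`: unknown). The contents of the `s` cells are elements of the ordered set `D` of
states of knowledge, and respect the order: more knowledge about the family gives more knowledge in
the cells. In addition every query `q = (i, j)` has `2 r` free places: the contents `free q 0 c` do
not depend on the set `i`, and the contents `free q 1 c` do not depend on the set `j`. If `M` are the
contents of the cells and of the free places, then the query reads the places `reads q M`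
(adaptively) and reports the elements of `answer q M`, which are determined by the contents of the
places read and are still reported when the contents become larger. -/
structure IDS (D : Type) [PartialOrder D] (m n s r : ℕ) where
  /-- the contents of the cells -/
  cell : Fin s → Know (Fin m × Fin n) → D
  cell_mono : ∀ c P P', Le P P' → cell c P ≤ cell c P'
  /-- the contents of the free places -/
  free : Fin m × Fin m → Fin 2 → Fin r → Know (Fin m × Fin n) → D
  free_mono : ∀ q a c P P', Le P P' → free q a c P ≤ free q a c P'
  free_indep : ∀ q a c P P', (∀ l, l ≠ Pool.Agent.T2H60.MH.setOf q a → ∀ e, P (l, e) = P' (l, e)) →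
    free q a c P = free q a c P'
  /-- the places read -/
  reads : Fin m × Fin m → (Place s r → D) → Finset (Place s r)
  /-- the elements reported -/
  answer : Fin m × Fin m → (Place s r → D) → Finset (Fin n)
  answer_mono : ∀ q M M', M ≤ M' → answer q M ⊆ answer q M'
  answer_reads : ∀ q M M', (∀ c ∈ reads q M, M' c = M c) → answer q M' = answer q M

/-- the bits of a family -/
def mbr {m n : ℕ} (F : Fin m → Finset (Fin n)) (x : Fin m × Fin n) : Prop := x.2 ∈ F x.1

section

variable {D : Type} [PartialOrder D] {m n s r : ℕ}

/-- the contents of the cells and of the free places of the query `q` -/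
def IDS.mem (S : IDS D m n s r) (P : Know (Fin m × Fin n)) (q : Fin m × Fin m) : Place s r → D
  | .inl c => S.cell c P
  | .inr c => S.free q c.1 c.2 P

/-- the elements reported for the query `q` -/
def IDS.out (S : IDS D m n s r) (P : Know (Fin m × Fin n)) (q : Fin m × Fin m) : Finset (Fin n) :=
  S.answer q (S.mem P q)

/-- the number of places read for the query `q` -/
def IDS.cost (S : IDS D m n s r) (P : Know (Fin m × Fin n)) (q : Fin m × Fin m) : ℕ :=
  (S.reads q (S.mem P q)).card

/-- The random structure `S` (it is `S ϖ` with probability `p ϖ`) solves SetIntersection with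
unknown inputs, with advantage `δ` and query time `C (T + op)`: for every family `F` and every query
`q = (i, j)`, `i ≠ j`, each element of both sets is reported with probability at least `1 / 2 + δ`
as soon as the elements of the sets are known (everything else may be unknown), each other element
is not reported with probability at least `1 / 2 + δ` if everything is known, and at most
`C (T + op)` places are read on the average if only the elements of the sets are known; `op` is the
size of the intersection. -/
def ISolves {Ω : Type} [Fintype Ω] (p : Ω → ℝ) (S : Ω → IDS D m n s r) (δ C T : ℝ) : Prop :=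
  (∀ ϖ, 0 ≤ p ϖ) ∧ ∑ ϖ, p ϖ = 1 ∧
  ∀ (F : Fin m → Finset (Fin n)) (q : Fin m × Fin m), q.1 ≠ q.2 →
    (∀ e, (e ∈ F q.1 ∩ F q.2 → 1 / 2 + δ ≤
        ∑ ϖ ∈ univ.filter (fun ϖ => e ∈ (S ϖ).out (truths (mbr F)) q), p ϖ) ∧
      (e ∉ F q.1 ∩ F q.2 → 1 / 2 + δ ≤
        ∑ ϖ ∈ univ.filter (fun ϖ => e ∉ (S ϖ).out (full (mbr F)) q), p ϖ)) ∧
    ∑ ϖ, p ϖ * ((S ϖ).cost (truths (mbr F)) q : ℝ) ≤ C * (T + (F q.1 ∩ F q.2).card)

theorem IDS.mem_mono (S : IDS D m n s r) {P P' : Know (Fin m × Fin n)} (h : Le P P')
    (q : Fin m × Fin m) : S.mem P q ≤ S.mem P' q := by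
  rintro (c | c)
  · exact S.cell_mono c _ _ h
  · exact S.free_mono q _ _ _ _ h

/-- everything is known to be in all sets -/
noncomputable def IDS.top (S : IDS D m n s r) (q : Fin m × Fin m) : Place s r → D :=
  S.mem (truths fun _ : Fin m × Fin n => True) q

theorem IDS.exists_real (hD : TreeLike D) (S : IDS D m n s r) :
    ∃ S' : FreeDS m n s r, ∀ (F : Fin m → Finset (Fin n)) (q : Fin m × Fin m),
      S'.out F q = S.out (truths (mbr F)) q ∧ S'.cost F q = S.cost (truths (mbr F)) q := by
  choose fc hfc using fun c : Fin s => hD (S.cell c (truths fun _ : Fin m × Fin n => True))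
  choose ff hff using fun (q : Fin m × Fin m) (c : Fin 2 × Fin r) =>
    hD (S.free q c.1 c.2 (truths fun _ : Fin m × Fin n => True))
  let f : Fin m × Fin m → Place s r → D → ℝ := fun q =>
    Sum.elim (fun c => fc c) (fun c => ff q c)
  have hf : ∀ q c, ∀ x ≤ S.top q c, ∀ y ≤ S.top q c, (x ≤ y ↔ f q c x ≤ f q c y) := by
    rintro q (c | c)
    · exact hfc c
    · exact hff q c
  have htr : ∀ b : Fin m × Fin n → Prop, Le (truths b) (truths fun _ => True) :=
    fun b => truths_le_truths fun _ _ => trivial
  have hle : ∀ (b : Fin m × Fin n → Prop) (q : Fin m × Fin m) (c : Place s r),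
      S.mem (truths b) q c ≤ S.top q c := fun b q c => S.mem_mono (htr b) q c
  have hF : ∀ {F F' : Fin m → Finset (Fin n)}, F ≤ F' →
      Le (truths (mbr F)) (truths (mbr F')) := by
    intro F F' h
    exact truths_le_truths fun x hx => h x.1 hx
  let S' : FreeDS m n s r :=
    { cell := fun c F => fc c (S.cell c (truths (mbr F)))
      cell_mono := fun c F F' h =>
        (hfc c _ (S.cell_mono c _ _ (htr _)) _ (S.cell_mono c _ _ (htr _))).1
          (S.cell_mono c _ _ (hF h))
      free := fun q a c F => ff q (a, c) (S.free q a c (truths (mbr F)))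
      free_mono := fun q a c F F' h =>
        (hff q (a, c) _ (S.free_mono q a c _ _ (htr _)) _ (S.free_mono q a c _ _ (htr _))).1
          (S.free_mono q a c _ _ (hF h))
      free_indep := fun q a c F F' h => by
        have : S.free q a c (truths (mbr F)) = S.free q a c (truths (mbr F')) := by
          refine S.free_indep q a c _ _ fun l hl e => ?_
          have h1 : mbr F (l, e) ↔ mbr F' (l, e) := by
            unfold mbr
            rw [h l hl]
          unfold truths
          by_cases h2 : mbr F (l, e)
          · rw [if_pos h2, if_pos (h1.1 h2)]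
          · rw [if_neg h2, if_neg (fun h3 => h2 (h1.2 h3))]
        rw [this]
      reads := fun q M => Rd (S.top q) (f q) (S.reads q) M
      answer := fun q M => univ.filter fun e =>
        Acc (S.top q) (f q) (fun N => e ∈ S.answer q N) M
      answer_mono := fun q M M' h e he => by
        rw [mem_filter] at he ⊢
        exact ⟨he.1, acc_mono h he.2⟩
      answer_reads := fun q M M' h => by
        ext e
        rw [mem_filter, mem_filter]
        have h2 := acc_reads (hf q) (accept := fun N => e ∈ S.answer q N)
          (fun N N' hN he => S.answer_mono q N N' hN he) (reads := S.reads q)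
          (fun N N1 hN => by
            show e ∈ S.answer q N1 ↔ e ∈ S.answer q N
            rw [S.answer_reads q N N1 hN]) h
        rw [h2] }
  have hmem : ∀ (F : Fin m → Finset (Fin n)) (q : Fin m × Fin m) (c : Place s r),
      S'.mem F q c = f q c (S.mem (truths (mbr F)) q c) := by
    rintro F q (c | c) <;> rfl
  refine ⟨S', fun F q => ⟨?_, ?_⟩⟩
  · ext e
    show e ∈ univ.filter _ ↔ _
    rw [mem_filter]
    have h2 := acc_iff (hf q) (accept := fun N => e ∈ S.answer q N)
      (fun N N' hN he => S.answer_mono q N N' hN he) (hle (mbr F) q)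
      (R := S.reads q (S.mem (truths (mbr F)) q))
      (fun M1 h1 => by
        show e ∈ S.answer q M1 ↔ e ∈ S.answer q _
        rw [S.answer_reads q _ M1 h1]) (fun c _ => hmem F q c)
    exact ⟨fun h => h2.1 h.2, fun h => ⟨mem_univ _, h2.2 h⟩⟩
  · show (Rd (S.top q) (f q) (S.reads q) (S'.mem F q)).card = _
    rw [rd_eq (hf q) (S.reads q) (hle (mbr F) q) (hmem F q)]
    rfl

/-- a random structure with unknown inputs gives a random monotone structure -/
theorem ISolves.real (hD : TreeLike D) {Ω : Type} [Fintype Ω] {p : Ω → ℝ}
    {S : Ω → IDS D m n s r} {δ C T : ℝ} (hS : ISolves p S δ C T) :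
    ∃ S' : Ω → FreeDS m n s r, Pool.Agent.T2H60.MH.Solves p S' δ C T := by
  obtain ⟨hp, hp1, h⟩ := hS
  choose S' hS' using fun ϖ => (S ϖ).exists_real hD
  refine ⟨S', hp, hp1, fun F q hq => ?_⟩
  obtain ⟨h1, h2⟩ := h F q hq
  constructor
  · intro e
    by_cases he : e ∈ F q.1 ∩ F q.2
    · refine ((h1 e).1 he).trans (sum_le_sum_of_subset_of_nonneg ?_ fun ϖ _ _ => hp ϖ)
      intro ϖ hϖ
      simp only [mem_filter] at hϖ ⊢
      refine ⟨hϖ.1, ⟨fun _ => he, fun _ => ?_⟩⟩
      rw [(hS' ϖ F q).1]
      exact hϖ.2
    · refine ((h1 e).2 he).trans (sum_le_sum_of_subset_of_nonneg ?_ fun ϖ _ _ => hp ϖ)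
      intro ϖ hϖ
      simp only [mem_filter] at hϖ ⊢
      refine ⟨hϖ.1, ⟨fun ho => ?_, fun hh => absurd hh he⟩⟩
      rw [(hS' ϖ F q).1] at ho
      exact absurd ((S ϖ).answer_mono q _ _ ((S ϖ).mem_mono (truths_le_full _) q) ho) hϖ.2
  · refine le_trans (le_of_eq ?_) h2
    refine sum_congr rfl fun ϖ _ => ?_
    rw [(hS' ϖ F q).2]

end

/-! ### The table -/

section

variable {m n : ℕ}

/-- the number of the cell for the sets `i`, `j` and the element `e` -/
noncomputable def num (m n : ℕ) : (Fin m × Fin m) × Fin n ≃ Fin (m * m * n) :=
  Fintype.equivFinOfCardEq (by simp)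

/-- the table: for all sets `i`, `j` and elements `e` a cell which says whether `e` is in both
sets -/
noncomputable def itable (m n : ℕ) : IDS (Flat Bool) m n (m * m * n) 0 where
  cell c P := kand (inp (P (((num m n).symm c).1.1, ((num m n).symm c).2)))
    (inp (P (((num m n).symm c).1.2, ((num m n).symm c).2)))
  cell_mono := by
    intro c P P' h
    have hi : ∀ x, inp (P x) ≤ inp (P' x) := by
      intro x
      rw [Flat.le_iff]
      rcases h x with h1 | h1
      · left; rw [h1]; rfl
      · right; rw [h1]
    exact kand_mono _ _ _ _ (hi _) (hi _)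
  free _ _ c _ := c.elim0
  free_mono _ _ c := c.elim0
  free_indep _ _ c := c.elim0
  reads q _ := univ.image fun e : Fin n => (.inl (num m n (q, e)) : Place (m * m * n) 0)
  answer q M := univ.filter fun e => M (.inl (num m n (q, e))) = known true
  answer_mono := by
    intro q M M' h e he
    rw [mem_filter] at he ⊢
    refine ⟨he.1, ?_⟩
    have h3 := h (.inl (num m n (q, e)))
    rw [he.2, Flat.le_iff] at h3
    rcases h3 with h3 | h3
    · exact absurd h3 (by simp)
    · exact h3.symm
  answer_reads := by
    intro q M M' h
    ext e
    rw [mem_filter, mem_filter, h (.inl (num m n (q, e))) (mem_image_of_mem _ (mem_univ e))]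

theorem itable_out (P : Know (Fin m × Fin n)) (q : Fin m × Fin m) (e : Fin n) :
    e ∈ (itable m n).out P q ↔ P (q.1, e) = some true ∧ P (q.2, e) = some true := by
  show e ∈ univ.filter _ ↔ _
  rw [mem_filter]
  show _ ∧ kand (inp (P (((num m n).symm (num m n (q, e))).1.1, _)))
    (inp (P (((num m n).symm (num m n (q, e))).1.2, _))) = known true ↔ _
  rw [Equiv.symm_apply_apply, kand_true, inp_eq, inp_eq]
  simp

theorem itable_cost (P : Know (Fin m × Fin n)) (q : Fin m × Fin m) :
    (itable m n).cost P q ≤ n := by
  show (univ.image _).card ≤ n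
  refine card_image_le.trans ?_
  rw [card_univ, Fintype.card_fin]

theorem itable_solves (m n : ℕ) :
    ISolves (fun _ : Unit => 1) (fun _ => itable m n) (1 / 2) 1 n := by
  refine ⟨fun _ => zero_le_one, by simp, fun F q _ => ⟨fun e => ⟨fun he => ?_, fun he => ?_⟩, ?_⟩⟩
  · have h : e ∈ (itable m n).out (truths (mbr F)) q := by
      rw [mem_inter] at he
      rw [itable_out]
      unfold truths mbr
      simp [he.1, he.2]
    rw [filter_true_of_mem (fun _ _ => h)]
    norm_num
  · have h : e ∉ (itable m n).out (full (mbr F)) q := by
      rw [mem_inter] at he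
      rw [itable_out]
      unfold full mbr
      simpa using he
    rw [filter_true_of_mem (fun _ _ => h)]
    norm_num
  · have h : ((itable m n).cost (truths (mbr F)) q : ℝ) ≤ n := by
      exact_mod_cast itable_cost _ q
    simp only [univ_unique, sum_singleton, one_mul]
    have : (0 : ℝ) ≤ (F q.1 ∩ F q.2).card := Nat.cast_nonneg _
    linarith

theorem itable_exact (P : Know (Fin m × Fin n)) (q : Fin m × Fin m) (e : Fin n) :
    e ∈ (itable m n).out P q ↔
      ∀ F : Fin m → Finset (Fin n), Le P (full (mbr F)) → e ∈ F q.1 ∩ F q.2 := by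
  rw [itable_out]
  constructor
  · rintro ⟨h1, h2⟩ F hF
    have key : ∀ x, P x = some true → mbr F x := by
      intro x hx
      rcases hF x with h | h
      · rw [hx] at h; exact absurd h (by simp)
      · rw [hx] at h
        unfold full at h
        simpa using h.symm
    rw [mem_inter]
    exact ⟨key _ h1, key _ h2⟩
  · intro h
    have h2 := h (fun i => univ.filter fun e => P (i, e) = some true) ?_
    · rw [mem_inter, mem_filter, mem_filter] at h2
      exact ⟨h2.1.2, h2.2.2⟩
    · intro x
      unfold full mbr
      rcases hP : P x with _ | b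
      · left; rfl
      · right
        cases b <;> simp [hP]

end

end Pool.Agent.H698.UD
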