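import Pool.Agent.H698.UD.Dec
import Pool.Graph.R_seed8.H525R4.Mono.OMvLower

set_option autoImplicit false

/-! # Online matrix-vector multiplication with partial knowledge about the matrix (helper698) -/

open scoped Classical
open Finset

namespace Pool.Agent.H698.UD

open Pool.Agent.H698.HF
open Pool.Agent.H525R4.Mono (OMvDS OMvSolves mulVec omv_lower)
open Flat (unknown known)

/-- An online data structure with `s` cells for the Boolean products of an `n × n` matrix with
vectors (sets of columns), which computes with partial knowledge about the matrix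
(`P (i, j) = some true`: the entry `(i, j)` is known to be one, `some false`: known to be zero,
`none`: unknown). After the vectors in the list `h` have been answered the contents `cell h c P` of
the cells are elements of the ordered set `D` of states of knowledge which depend on `h` in an
arbitrary way (the memory may be rewritten between two vectors) and respect the order: more knowledge
about the matrix gives more knowledge in the cells. If `v` is the next vector and `m` are the
contents of the cells then the cells `reads h v m` are read (adaptively), and the rows in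
`answer h v m` are reported, which are determined by the contents of the cells read and are still
reported when the contents become larger. -/
structure ODS (D : Type) [PartialOrder D] (n s : ℕ) where
  /-- the contents of the cells -/
  cell : List (Finset (Fin n)) → Fin s → Know (Fin n × Fin n) → D
  cell_mono : ∀ h c P P', Le P P' → cell h c P ≤ cell h c P'
  /-- the cells read -/
  reads : List (Finset (Fin n)) → Finset (Fin n) → (Fin s → D) → Finset (Fin s)
  /-- the rows reported -/
  answer : List (Finset (Fin n)) → Finset (Fin n) → (Fin s → D) → Finset (Fin n)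
  answer_mono : ∀ h v m m', m ≤ m' → answer h v m ⊆ answer h v m'
  answer_reads : ∀ h v m m', (∀ c ∈ reads h v m, m' c = m c) → answer h v m' = answer h v m

/-- the entries of a matrix, given by the set of the places of its ones -/
def ent {n : ℕ} (M : Finset (Fin n × Fin n)) (x : Fin n × Fin n) : Prop := x ∈ M

section

variable {D : Type} [PartialOrder D] {n s : ℕ}

/-- the contents of the memory after the history `h` -/
def ODS.mem (S : ODS D n s) (h : List (Finset (Fin n))) (P : Know (Fin n × Fin n)) : Fin s → D :=
  fun c => S.cell h c P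

/-- the rows reported for the vector `v` after the history `h` -/
def ODS.out (S : ODS D n s) (h : List (Finset (Fin n))) (P : Know (Fin n × Fin n))
    (v : Finset (Fin n)) : Finset (Fin n) := S.answer h v (S.mem h P)

/-- the number of cells read for the vector `v` after the history `h` -/
def ODS.cost (S : ODS D n s) (h : List (Finset (Fin n))) (P : Know (Fin n × Fin n))
    (v : Finset (Fin n)) : ℕ := (S.reads h v (S.mem h P)).card

/-- After the history `h` the random structure `S` (it is `S ϖ` with probability `p ϖ`) answers the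
next vector with unknown inputs, advantage `δ` and `t` probes: for every matrix `M` and every vector
`v` each row `i` with `(M v) i = 1` is reported with probability at least `1 / 2 + δ` as soon as the
ones of the matrix are known (everything else may be unknown), each other row is not reported with
probability at least `1 / 2 + δ` if the matrix is known, and at most `t` cells are read on the average
if only the ones are known. -/
def OSolves {Ω : Type} [Fintype Ω] (p : Ω → ℝ) (S : Ω → ODS D n s)
    (h : List (Finset (Fin n))) (δ t : ℝ) : Prop :=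
  (∀ ϖ, 0 ≤ p ϖ) ∧ ∑ ϖ, p ϖ = 1 ∧
  ∀ (M : Finset (Fin n × Fin n)) (v : Finset (Fin n)),
    (∀ i, ((∃ j ∈ v, (i, j) ∈ M) → 1 / 2 + δ ≤
        ∑ ϖ ∈ univ.filter (fun ϖ => i ∈ (S ϖ).out h (truths (ent M)) v), p ϖ) ∧
      (¬ (∃ j ∈ v, (i, j) ∈ M) → 1 / 2 + δ ≤
        ∑ ϖ ∈ univ.filter (fun ϖ => i ∉ (S ϖ).out h (full (ent M)) v), p ϖ)) ∧
    ∑ ϖ, p ϖ * ((S ϖ).cost h (truths (ent M)) v : ℝ) ≤ t

theorem ODS.exists_real (hD : TreeLike D) (S : ODS D n s) :
    ∃ S' : OMvDS n s, ∀ (h : List (Finset (Fin n))) (M : Finset (Fin n × Fin n))
      (v : Finset (Fin n)), S'.out h M v = S.out h (truths (ent M)) v ∧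
        S'.cost h M v = S.cost h (truths (ent M)) v := by
  choose f hf using fun (h : List (Finset (Fin n))) (c : Fin s) =>
    hD (S.cell h c (truths fun _ : Fin n × Fin n => True))
  have htr : ∀ b : Fin n × Fin n → Prop, Le (truths b) (truths fun _ => True) :=
    fun b => truths_le_truths fun _ _ => trivial
  let top : List (Finset (Fin n)) → Fin s → D :=
    fun h c => S.cell h c (truths fun _ : Fin n × Fin n => True)
  have hle : ∀ (b : Fin n × Fin n → Prop) (h : List (Finset (Fin n))) (c : Fin s),
      S.mem h (truths b) c ≤ top h c := fun b h c => S.cell_mono h c _ _ (htr b)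
  have hF : ∀ {M M' : Finset (Fin n × Fin n)}, M ≤ M' →
      Le (truths (ent M)) (truths (ent M')) := by
    intro M M' h
    exact truths_le_truths fun x hx => h hx
  let S' : OMvDS n s :=
    { cell := fun h c M => f h c (S.cell h c (truths (ent M)))
      cell_mono := fun h c M M' hM =>
        (hf h c _ (S.cell_mono h c _ _ (htr _)) _ (S.cell_mono h c _ _ (htr _))).1
          (S.cell_mono h c _ _ (hF hM))
      reads := fun h v m => Rd (top h) (f h) (S.reads h v) m
      answer := fun h v m => univ.filter fun i =>
        Acc (top h) (f h) (fun N => i ∈ S.answer h v N) m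
      answer_mono := fun h v m m' hm i hi => by
        rw [mem_filter] at hi ⊢
        exact ⟨hi.1, acc_mono hm hi.2⟩
      answer_reads := fun h v m m' hm => by
        ext i
        rw [mem_filter, mem_filter]
        have h2 := acc_reads (hf h) (accept := fun N => i ∈ S.answer h v N)
          (fun N N' hN hi => S.answer_mono h v N N' hN hi) (reads := S.reads h v)
          (fun N N1 hN => by
            show i ∈ S.answer h v N1 ↔ i ∈ S.answer h v N
            rw [S.answer_reads h v N N1 hN]) hm
        rw [h2] }
  refine ⟨S', fun h M v => ⟨?_, ?_⟩⟩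
  · ext i
    show i ∈ univ.filter _ ↔ _
    rw [mem_filter]
    have h2 := acc_iff (hf h) (accept := fun N => i ∈ S.answer h v N)
      (fun N N' hN hi => S.answer_mono h v N N' hN hi) (hle (ent M) h)
      (R := S.reads h v (S.mem h (truths (ent M))))
      (M'' := S'.mem h M)
      (fun M1 h1 => by
        show i ∈ S.answer h v M1 ↔ i ∈ S.answer h v _
        rw [S.answer_reads h v _ M1 h1]) (fun c _ => rfl)
    exact ⟨fun h => h2.1 h.2, fun h => ⟨mem_univ _, h2.2 h⟩⟩
  · show (Rd (top h) (f h) (S.reads h v) (S'.mem h M)).card = _
    have e := rd_eq (top := top h) (f := f h) (hf h) (S.reads h v)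
      (M0 := S.mem h (truths (ent M))) (hle (ent M) h) (M' := S'.mem h M) (fun c => rfl)
    rw [e]
    rfl

theorem OSolves.lower (hD : TreeLike D) {Ω : Type} [Fintype Ω] {p : Ω → ℝ} {S : Ω → ODS D n s}
    {h : List (Finset (Fin n))} {δ t : ℝ} (hδ : 0 < δ) (hδ2 : δ ≤ 1 / 2)
    (hS : OSolves p S h δ t) :
    δ * (n : ℝ) ^ 2 ≤ 4 * t * (Real.logb 2 (8 * s / δ)) ^ 2 := by
  obtain ⟨hp, hp1, hs⟩ := hS
  choose S' hS' using fun ϖ => (S ϖ).exists_real hD
  refine omv_lower hδ hδ2 p S' h ⟨hp, hp1, fun M v => ?_⟩
  obtain ⟨h1, h2⟩ := hs M v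
  have hmul : ∀ i, i ∈ mulVec M v ↔ ∃ j ∈ v, (i, j) ∈ M := by
    intro i
    unfold mulVec
    simp
  constructor
  · intro i
    by_cases hi : ∃ j ∈ v, (i, j) ∈ M
    · refine ((h1 i).1 hi).trans (sum_le_sum_of_subset_of_nonneg ?_ fun ϖ _ _ => hp ϖ)
      intro ϖ hϖ
      simp only [mem_filter] at hϖ ⊢
      refine ⟨hϖ.1, ⟨fun _ => (hmul i).2 hi, fun _ => ?_⟩⟩
      rw [(hS' ϖ h M v).1]
      exact hϖ.2
    · refine ((h1 i).2 hi).trans (sum_le_sum_of_subset_of_nonneg ?_ fun ϖ _ _ => hp ϖ)
      intro ϖ hϖ
      simp only [mem_filter] at hϖ ⊢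
      refine ⟨hϖ.1, ⟨fun ho => ?_, fun hh => absurd ((hmul i).1 hh) hi⟩⟩
      rw [(hS' ϖ h M v).1] at ho
      exact absurd ((S ϖ).answer_mono h v _ _
        (fun c => (S ϖ).cell_mono h c _ _ (truths_le_full _)) ho) hϖ.2
  · refine le_trans (le_of_eq ?_) h2
    refine sum_congr rfl fun ϖ _ => ?_
    rw [(hS' ϖ h M v).2]

end

/-! ### The table of the entries -/

/-- the number of the cell of an entry -/
noncomputable def onum (n : ℕ) : Fin n × Fin n ≃ Fin (n * n) :=
  Fintype.equivFinOfCardEq (by simp)

/-- the entry, as an element of the three-valued order -/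
def oinp (o : Option Bool) : Flat Bool :=
  match o with
  | none => unknown
  | some b => known b

/-- the table: a cell for each entry -/
noncomputable def otable (n : ℕ) : ODS (Flat Bool) n (n * n) where
  cell _ c P := oinp (P ((onum n).symm c))
  cell_mono := by
    intro h c P P' hP
    rw [Flat.le_iff]
    rcases hP ((onum n).symm c) with h1 | h1
    · left; rw [h1]; rfl
    · right; rw [h1]
  reads _ v _ := univ.image fun e : Fin n × Fin n => onum n e
  answer _ v m := univ.filter fun i => ∃ j ∈ v, m (onum n (i, j)) = known true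
  answer_mono := by
    intro h v m m' hm i hi
    rw [mem_filter] at hi ⊢
    obtain ⟨hi1, j, hj, hi2⟩ := hi
    refine ⟨hi1, j, hj, ?_⟩
    have h3 := hm (onum n (i, j))
    rw [hi2, Flat.le_iff] at h3
    rcases h3 with h3 | h3
    · exact absurd h3 (by simp)
    · exact h3.symm
  answer_reads := by
    intro h v m m' hm
    ext i
    rw [mem_filter, mem_filter]
    refine and_congr_right fun _ => exists_congr fun j => and_congr_right fun _ => ?_
    rw [hm (onum n (i, j)) (mem_image_of_mem _ (mem_univ _))]

theorem otable_out {n : ℕ} (h : List (Finset (Fin n))) (P : Know (Fin n × Fin n))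
    (v : Finset (Fin n)) (i : Fin n) :
    i ∈ (otable n).out h P v ↔ ∃ j ∈ v, P (i, j) = some true := by
  show i ∈ univ.filter _ ↔ _
  rw [mem_filter]
  show (_ ∧ ∃ j ∈ v, oinp (P ((onum n).symm (onum n (i, j)))) = known true) ↔ _
  constructor
  · rintro ⟨-, j, hj, h1⟩
    refine ⟨j, hj, ?_⟩
    rw [Equiv.symm_apply_apply] at h1
    rcases hP : P (i, j) with _ | b
    · rw [hP] at h1; exact absurd h1 (by simp [oinp])
    · rw [hP] at h1
      unfold oinp at h1
      simp only at h1
      have : b = true := by simpa using h1
      rw [this]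
  · rintro ⟨j, hj, h1⟩
    refine ⟨mem_univ _, j, hj, ?_⟩
    rw [Equiv.symm_apply_apply, h1]
    rfl

theorem otable_cost {n : ℕ} (h : List (Finset (Fin n))) (P : Know (Fin n × Fin n))
    (v : Finset (Fin n)) : (otable n).cost h P v ≤ n ^ 2 := by
  show (univ.image _).card ≤ n ^ 2
  refine card_image_le.trans ?_
  rw [card_univ, Fintype.card_prod, Fintype.card_fin, sq]

theorem otable_solves (n : ℕ) (h : List (Finset (Fin n))) :
    OSolves (fun _ : Unit => 1) (fun _ => otable n) h (1 / 2) (n ^ 2) := by
  refine ⟨fun _ => zero_le_one, by simp, fun M v => ⟨fun i => ⟨fun hi => ?_, fun hi => ?_⟩, ?_⟩⟩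
  · have h : i ∈ (otable n).out h (truths (ent M)) v := by
      rw [otable_out]
      obtain ⟨j, hj, hM⟩ := hi
      refine ⟨j, hj, ?_⟩
      unfold truths ent
      simp [hM]
    rw [filter_true_of_mem (fun _ _ => h)]
    norm_num
  · have h : i ∉ (otable n).out h (full (ent M)) v := by
      rw [otable_out]
      rintro ⟨j, hj, h1⟩
      refine hi ⟨j, hj, ?_⟩
      unfold full ent at h1
      simpa using h1
    rw [filter_true_of_mem (fun _ _ => h)]
    norm_num
  · have h : ((otable n).cost h (truths (ent M)) v : ℝ) ≤ (n : ℝ) ^ 2 := by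
      exact_mod_cast otable_cost _ _ _
    simp only [univ_unique, sum_singleton, one_mul]
    exact h

theorem otable_exact {n : ℕ} (h : List (Finset (Fin n))) (P : Know (Fin n × Fin n))
    (v : Finset (Fin n)) (i : Fin n) : i ∈ (otable n).out h P v ↔
      ∀ M : Finset (Fin n × Fin n), Le P (full (ent M)) → ∃ j ∈ v, (i, j) ∈ M := by
  rw [otable_out]
  constructor
  · rintro ⟨j, hj, h1⟩ M hM
    refine ⟨j, hj, ?_⟩
    rcases hM (i, j) with h2 | h2
    · rw [h1] at h2; exact absurd h2 (by simp)
    · rw [h1] at h2
      unfold full ent at h2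
      simpa using h2.symm
  · intro h
    obtain ⟨j, hj, hM⟩ := h (univ.filter fun x => P x = some true) (by
      intro x
      unfold full ent
      rcases hP : P x with _ | b
      · left; rfl
      · right
        cases b <;> simp [hP])
    exact ⟨j, hj, (mem_filter.1 hM).2⟩

end Pool.Agent.H698.UD
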