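import Pool.Agent.H698.UD.OMv

set_option autoImplicit false

/-! # Products over `F_2` with partial knowledge about the matrix (helper698) -/

open scoped Classical
open Finset

namespace Pool.Agent.H698.UD

open Pool.Agent.H698.HF
open Pool.Agent.H525R4.Mono (OMvDS OMvSolves mulVec omv_lower)
open Flat (unknown known)

/-- An online data structure with `s` cells for the products over `F_2` of an `n × n` matrix with
vectors (sets of columns), which computes with partial knowledge about the matrix
(`P (i, j) = some true`: the entry `(i, j)` is known to be one, `some false`: known to be zero,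
`none`: unknown). After the vectors in the list `h` have been answered the contents `cell h c P` of
the cells are elements of the ordered set `D` of states of knowledge which depend on `h` in an
arbitrary way (the memory may be rewritten between two vectors) and respect the order: more knowledge
about the matrix gives more knowledge in the cells. If `v` is the next vector and `m` are the
contents of the cells then the cells `reads h v m` are read (adaptively), and the answer for the row
`i` is `answer h v m i`, that is zero (`known false`), one (`known true`) or nothing (`unknown`). The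
answers are determined by the contents of the cells read, and an answer does not change when the
contents become larger. -/
structure FDS (D : Type) [PartialOrder D] (n s : ℕ) where
  /-- the contents of the cells -/
  cell : List (Finset (Fin n)) → Fin s → Know (Fin n × Fin n) → D
  cell_mono : ∀ h c P P', Le P P' → cell h c P ≤ cell h c P'
  /-- the cells read -/
  reads : List (Finset (Fin n)) → Finset (Fin n) → (Fin s → D) → Finset (Fin s)
  /-- the answers -/
  answer : List (Finset (Fin n)) → Finset (Fin n) → (Fin s → D) → Fin n → Flat Bool
  answer_mono : ∀ h v m m', m ≤ m' → ∀ i, answer h v m i ≤ answer h v m' i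
  answer_reads : ∀ h v m m', (∀ c ∈ reads h v m, m' c = m c) → answer h v m' = answer h v m

section

variable {D : Type} [PartialOrder D] {n s : ℕ}

/-- the contents of the memory after the history `h` -/
def FDS.mem (S : FDS D n s) (h : List (Finset (Fin n))) (P : Know (Fin n × Fin n)) : Fin s → D :=
  fun c => S.cell h c P

/-- the answer for the vector `v` and the row `i` after the history `h` -/
def FDS.out (S : FDS D n s) (h : List (Finset (Fin n))) (P : Know (Fin n × Fin n))
    (v : Finset (Fin n)) (i : Fin n) : Flat Bool := S.answer h v (S.mem h P) i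

/-- the number of cells read for the vector `v` after the history `h` -/
def FDS.cost (S : FDS D n s) (h : List (Finset (Fin n))) (P : Know (Fin n × Fin n))
    (v : Finset (Fin n)) : ℕ := (S.reads h v (S.mem h P)).card

/-- the entry `i` of the product over `F_2` of the matrix with the vector `v`, if the unknown entries
are zero: is the number of the `j` in `v` with a known one at `(i, j)` odd? -/
noncomputable def par (P : Know (Fin n × Fin n)) (v : Finset (Fin n)) (i : Fin n) : Bool :=
  decide (Odd (v.filter fun j => P (i, j) = some true).card)

/-- After the history `h` the random structure `S` (it is `S ϖ` with probability `p ϖ`) answers the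
next vector with unknown inputs, advantage `δ` and `t` probes: for every partial knowledge `P` about
the matrix, every vector `v` and every row `i` such that all entries `(i, j)`, `j` in `v`, are known
(the other entries may be unknown) the answer for the row `i` is the entry `i` of the product, with
probability at least `1 / 2 + δ`; and at most `t` cells are read on the average. -/
def FSolves {Ω : Type} [Fintype Ω] (p : Ω → ℝ) (S : Ω → FDS D n s)
    (h : List (Finset (Fin n))) (δ t : ℝ) : Prop :=
  (∀ ϖ, 0 ≤ p ϖ) ∧ ∑ ϖ, p ϖ = 1 ∧
  ∀ (P : Know (Fin n × Fin n)) (v : Finset (Fin n)),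
    (∀ i, (∀ j ∈ v, P (i, j) ≠ none) → 1 / 2 + δ ≤
        ∑ ϖ ∈ univ.filter (fun ϖ => (S ϖ).out h P v i = known (par P v i)), p ϖ) ∧
    ∑ ϖ, p ϖ * ((S ϖ).cost h P v : ℝ) ≤ t

/-- the entries outside `U` are known to be zero, the entries in `U` are unknown -/
noncomputable def zeros {n : ℕ} (U : Finset (Fin n × Fin n)) : Know (Fin n × Fin n) :=
  fun x => if x ∈ U then none else some false

theorem zeros_anti {U U' : Finset (Fin n × Fin n)} (h : U ≤ U') : Le (zeros U') (zeros U) := by
  intro x
  unfold zeros
  by_cases hx : x ∈ U'
  · left; rw [if_pos hx]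
  · right
    rw [if_neg hx, if_neg fun h' => hx (h h')]

theorem FDS.exists_real (hD : TreeLike D) (S : FDS D n s) :
    ∃ S' : OMvDS n s, ∀ (h : List (Finset (Fin n))) (U : Finset (Fin n × Fin n))
      (v : Finset (Fin n)), (∀ i, i ∈ S'.out h U v ↔ S.out h (zeros U) v i ≠ known false) ∧
        S'.cost h U v = S.cost h (zeros U) v := by
  choose f hf using fun (h : List (Finset (Fin n))) (c : Fin s) =>
    hD (S.cell h c (zeros ∅))
  have htr : ∀ U : Finset (Fin n × Fin n), Le (zeros U) (zeros ∅) :=
    fun U => zeros_anti (by simp)
  let top : List (Finset (Fin n)) → Fin s → D := fun h c => S.cell h c (zeros ∅)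
  have hle : ∀ (U : Finset (Fin n × Fin n)) (h : List (Finset (Fin n))) (c : Fin s),
      S.mem h (zeros U) c ≤ top h c := fun U h c => S.cell_mono h c _ _ (htr U)
  have hacc : ∀ (h : List (Finset (Fin n))) (v : Finset (Fin n)) (i : Fin n) (N N' : Fin s → D),
      N ≤ N' → S.answer h v N i = known false → S.answer h v N' i = known false := by
    intro h v i N N' hN hi
    have h1 := S.answer_mono h v N N' hN i
    rw [hi, Flat.le_iff] at h1
    rcases h1 with h1 | h1
    · exact absurd h1 (by simp)
    · exact h1.symm
  let S' : OMvDS n s :=
    { cell := fun h c U => -f h c (S.cell h c (zeros U))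
      cell_mono := fun h c U U' hU => neg_le_neg
        ((hf h c _ (S.cell_mono h c _ _ (htr _)) _ (S.cell_mono h c _ _ (htr _))).1
          (S.cell_mono h c _ _ (zeros_anti hU)))
      reads := fun h v m => Rd (top h) (f h) (S.reads h v) (-m)
      answer := fun h v m => univ.filter fun i =>
        ¬ Acc (top h) (f h) (fun N => S.answer h v N i = known false) (-m)
      answer_mono := fun h v m m' hm i hi => by
        rw [mem_filter] at hi ⊢
        exact ⟨hi.1, fun hacc => hi.2 (acc_mono (neg_le_neg hm) hacc)⟩
      answer_reads := fun h v m m' hm => by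
        ext i
        rw [mem_filter, mem_filter]
        have h2 := acc_reads (hf h) (accept := fun N => S.answer h v N i = known false)
          (fun N N' hN hi => hacc h v i N N' hN hi) (reads := S.reads h v)
          (fun N N1 hN => by
            show S.answer h v N1 i = known false ↔ S.answer h v N i = known false
            rw [S.answer_reads h v N N1 hN]) (M' := -m) (M'' := -m') (fun c hc => by
              show -(m' c) = -(m c)
              rw [hm c hc])
        rw [h2] }
  have hmem : ∀ (h : List (Finset (Fin n))) (U : Finset (Fin n × Fin n)) (c : Fin s),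
      (-(S'.mem h U)) c = f h c (S.mem h (zeros U) c) := fun h U c => neg_neg _
  refine ⟨S', fun h U v => ⟨fun i => ?_, ?_⟩⟩
  · show i ∈ univ.filter _ ↔ _
    rw [mem_filter]
    have h2 := acc_iff (hf h) (accept := fun N => S.answer h v N i = known false)
      (fun N N' hN hi => hacc h v i N N' hN hi) (hle U h)
      (R := S.reads h v (S.mem h (zeros U)))
      (M'' := -(S'.mem h U))
      (fun M1 h1 => by
        show S.answer h v M1 i = known false ↔ S.answer h v _ i = known false
        rw [S.answer_reads h v _ M1 h1]) (fun c _ => hmem h U c)
    exact ⟨fun h3 h4 => h3.2 (h2.2 h4), fun h3 => ⟨mem_univ _, fun h4 => h3 (h2.1 h4)⟩⟩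
  · show (Rd (top h) (f h) (S.reads h v) (-(S'.mem h U))).card = _
    have e := rd_eq (top := top h) (f := f h) (hf h) (S.reads h v)
      (M0 := S.mem h (zeros U)) (hle U h) (M' := -(S'.mem h U)) (hmem h U)
    rw [e]
    rfl

theorem FSolves.lower (hD : TreeLike D) {Ω : Type} [Fintype Ω] {p : Ω → ℝ} {S : Ω → FDS D n s}
    {h : List (Finset (Fin n))} {δ t : ℝ} (hδ : 0 < δ) (hδ2 : δ ≤ 1 / 2)
    (hS : FSolves p S h δ t) :
    δ * (n : ℝ) ^ 2 ≤ 4 * t * (Real.logb 2 (8 * s / δ)) ^ 2 := by
  obtain ⟨hp, hp1, hs⟩ := hS
  choose S' hS' using fun ϖ => (S ϖ).exists_real hD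
  refine omv_lower hδ hδ2 p S' h ⟨hp, hp1, fun U v => ?_⟩
  have hmul : ∀ i, i ∈ mulVec U v ↔ ∃ j ∈ v, (i, j) ∈ U := by
    intro i
    unfold mulVec
    simp
  constructor
  · intro i
    by_cases hi : ∃ j ∈ v, (i, j) ∈ U
    · obtain ⟨j, hj, hij⟩ := hi
      -- complete the knowledge by a single one
      have hle : Le (zeros U) (full (ent {(i, j)})) := by
        intro x
        unfold zeros full ent
        by_cases hx : x ∈ U
        · left; rw [if_pos hx]
        · right
          rw [if_neg hx]
          have : x ∉ ({(i, j)} : Finset (Fin n × Fin n)) := by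
            intro h'
            rw [mem_singleton] at h'
            exact hx (h' ▸ hij)
          simp [this]
      have hpar : par (full (ent {(i, j)})) v i = true := by
        unfold par
        have : (v.filter fun j' => full (ent {(i, j)}) (i, j') = some true) = {j} := by
          ext j'
          unfold full ent
          simp only [mem_filter, mem_singleton, Option.some.injEq, decide_eq_true_eq,
            Prod.mk.injEq, true_and]
          exact ⟨fun h => h.2, fun h => ⟨h ▸ hj, h⟩⟩
        rw [this]
        simp
      have h1 := (hs (full (ent {(i, j)})) v).1 i (fun j' _ => by unfold full; simp)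
      rw [hpar] at h1
      refine h1.trans (sum_le_sum_of_subset_of_nonneg ?_ fun ϖ _ _ => hp ϖ)
      intro ϖ hϖ
      simp only [mem_filter] at hϖ ⊢
      refine ⟨hϖ.1, ⟨fun _ => (hmul i).2 ⟨j, hj, hij⟩, fun _ => ?_⟩⟩
      rw [(hS' ϖ h U v).1 i]
      intro h0
      have h2 := (S ϖ).answer_mono h v _ _
        (fun c => (S ϖ).cell_mono h c _ _ hle) i
      have h3 : (S ϖ).out h (zeros U) v i ≤ (S ϖ).out h (full (ent {(i, j)})) v i := h2
      rw [h0, hϖ.2, Flat.le_iff] at h3
      rcases h3 with h3 | h3
      · exact absurd h3 (by simp)
      · exact absurd h3 (by simp)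
    · have hk : ∀ j ∈ v, zeros U (i, j) ≠ none := by
        intro j hj
        unfold zeros
        rw [if_neg fun h' => hi ⟨j, hj, h'⟩]
        simp
      have hpar : par (zeros U) v i = false := by
        unfold par
        have : (v.filter fun j' => zeros U (i, j') = some true) = ∅ := by
          rw [filter_eq_empty_iff]
          intro j' _
          unfold zeros
          split_ifs <;> simp
        rw [this]
        simp
      have h1 := (hs (zeros U) v).1 i hk
      rw [hpar] at h1
      refine h1.trans (sum_le_sum_of_subset_of_nonneg ?_ fun ϖ _ _ => hp ϖ)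
      intro ϖ hϖ
      simp only [mem_filter] at hϖ ⊢
      refine ⟨hϖ.1, ⟨fun ho => ?_, fun hh => absurd ((hmul i).1 hh) hi⟩⟩
      rw [(hS' ϖ h U v).1 i] at ho
      exact absurd hϖ.2 ho
  · refine le_trans (le_of_eq ?_) (hs (zeros U) v).2
    refine sum_congr rfl fun ϖ _ => ?_
    rw [(hS' ϖ h U v).2]

end

/-! ### The table of the entries -/

/-- the table: a cell for each entry -/
noncomputable def ftable (n : ℕ) : FDS (Flat Bool) n (n * n) where
  cell _ c P := oinp (P ((onum n).symm c))
  cell_mono := by
    intro h c P P' hP
    rw [Flat.le_iff]
    rcases hP ((onum n).symm c) with h1 | h1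
    · left; rw [h1]; rfl
    · right; rw [h1]
  reads _ v _ := univ.image fun e : Fin n × Fin n => onum n e
  answer _ v m i := if ∀ j ∈ v, m (onum n (i, j)) ≠ unknown then
    known (decide (Odd (v.filter fun j => m (onum n (i, j)) = known true).card)) else unknown
  answer_mono := by
    intro h v m m' hm i
    by_cases h1 : ∀ j ∈ v, m (onum n (i, j)) ≠ unknown
    · have h2 : ∀ j ∈ v, m' (onum n (i, j)) = m (onum n (i, j)) := by
        intro j hj
        have h3 := hm (onum n (i, j))
        rw [Flat.le_iff] at h3
        rcases h3 with h3 | h3
        · exact absurd h3 (h1 j hj)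
        · exact h3.symm
      have h4 : ∀ j ∈ v, m' (onum n (i, j)) ≠ unknown := by
        intro j hj
        rw [h2 j hj]
        exact h1 j hj
      rw [if_pos h1, if_pos h4]
      have h5 : (v.filter fun j => m' (onum n (i, j)) = known true) =
          v.filter fun j => m (onum n (i, j)) = known true := by
        apply filter_congr
        intro j hj
        rw [h2 j hj]
      rw [h5]
    · rw [if_neg h1, Flat.le_iff]
      left
      rfl
  answer_reads := by
    intro h v m m' hm
    funext i
    have h2 : ∀ j, m' (onum n (i, j)) = m (onum n (i, j)) :=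
      fun j => hm (onum n (i, j)) (mem_image_of_mem _ (mem_univ _))
    simp only [h2]

theorem oinp_known {o : Option Bool} : oinp o ≠ unknown ↔ o ≠ none := by
  rcases o with _ | b
  · simp [oinp]
  · simp [oinp]

theorem oinp_true {o : Option Bool} : oinp o = known true ↔ o = some true := by
  rcases o with _ | b
  · simp [oinp]
  · cases b <;> simp [oinp]

theorem ftable_out {n : ℕ} (h : List (Finset (Fin n))) (P : Know (Fin n × Fin n))
    (v : Finset (Fin n)) (i : Fin n) : (ftable n).out h P v i =
      if ∀ j ∈ v, P (i, j) ≠ none then known (par P v i) else unknown := by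
  show (if ∀ j ∈ v, oinp (P ((onum n).symm (onum n (i, j)))) ≠ unknown then
    known (decide (Odd (v.filter fun j =>
      oinp (P ((onum n).symm (onum n (i, j)))) = known true).card)) else unknown) = _
  simp only [Equiv.symm_apply_apply, oinp_known, oinp_true]
  rfl

theorem ftable_cost {n : ℕ} (h : List (Finset (Fin n))) (P : Know (Fin n × Fin n))
    (v : Finset (Fin n)) : (ftable n).cost h P v ≤ n ^ 2 := by
  show (univ.image _).card ≤ n ^ 2
  refine card_image_le.trans ?_
  rw [card_univ, Fintype.card_prod, Fintype.card_fin, sq]

theorem ftable_solves (n : ℕ) (h : List (Finset (Fin n))) :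
    FSolves (fun _ : Unit => 1) (fun _ => ftable n) h (1 / 2) (n ^ 2) := by
  refine ⟨fun _ => zero_le_one, by simp, fun P v => ⟨fun i hi => ?_, ?_⟩⟩
  · have h : (ftable n).out h P v i = known (par P v i) := by
      rw [ftable_out, if_pos hi]
    rw [filter_true_of_mem (fun _ _ => h)]
    norm_num
  · have h : ((ftable n).cost h P v : ℝ) ≤ (n : ℝ) ^ 2 := by
      exact_mod_cast ftable_cost _ _ _
    simp only [univ_unique, sum_singleton, one_mul]
    exact h

end Pool.Agent.H698.UD
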