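import Pool.Agent.H698.UD.Dec
import Pool.Graph.R_seed8.H525R4.Mono.SumLower

set_option autoImplicit false

/-! # 3SUM-Indexing with partial knowledge about the arrays (helper698) -/

open scoped Classical
open Finset

namespace Pool.Agent.H698.UD

open Pool.Agent.H698.HF
open Pool.Agent.H525R4.Mono (Place SumDS SumSolves IsSum sum_lower)

/-- A data structure for 3SUM-Indexing with `s` cells and `2 r` free cells which computes with
partial knowledge about the two arrays (`P x = some true`: `x` is known to be in the first array,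
`some false`: known not to be there, `none`: unknown; `Q` for the second array). The contents of the
memory are elements of the ordered set `D` of states of knowledge, and respect the order: more
knowledge about the arrays gives more knowledge in the cells. The free cells depend on one array
only. If the contents of the memory are `M`, then the query `z` reads the places `reads z M`
(adaptively) and says that `z` is a sum iff `accept z M`, a condition which depends only on the
contents of the places read and is not lost when the contents become larger. -/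
structure KDS (D : Type) [PartialOrder D] (s r : ℕ) where
  /-- the contents of the cells -/
  cell : Fin s → Know ℤ → Know ℤ → D
  cell_mono : ∀ c P P' Q Q', Le P P' → Le Q Q' → cell c P Q ≤ cell c P' Q'
  /-- the contents of the free cells of the first array -/
  free1 : Fin r → Know ℤ → D
  free1_mono : ∀ c P P', Le P P' → free1 c P ≤ free1 c P'
  /-- the contents of the free cells of the second array -/
  free2 : Fin r → Know ℤ → D
  free2_mono : ∀ c Q Q', Le Q Q' → free2 c Q ≤ free2 c Q'
  /-- the places read -/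
  reads : ℤ → (Place s r → D) → Finset (Place s r)
  /-- the answer is yes -/
  accept : ℤ → (Place s r → D) → Prop
  accept_mono : ∀ z M M', M ≤ M' → accept z M → accept z M'
  accept_reads : ∀ z M M', (∀ c ∈ reads z M, M' c = M c) → (accept z M' ↔ accept z M)

section

variable {D : Type} [PartialOrder D] {s r : ℕ}

/-- the contents of the memory -/
def KDS.mem (S : KDS D s r) (P Q : Know ℤ) : Place s r → D
  | .inl c => S.cell c P Q
  | .inr (.inl c) => S.free1 c P
  | .inr (.inr c) => S.free2 c Q

/-- the answer to the query `z` is yes -/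
def KDS.out (S : KDS D s r) (P Q : Know ℤ) (z : ℤ) : Prop := S.accept z (S.mem P Q)

/-- the number of places read for the query `z` -/
def KDS.cost (S : KDS D s r) (P Q : Know ℤ) (z : ℤ) : ℕ := (S.reads z (S.mem P Q)).card

/-- The random structure `S` (it is `S ϖ` with probability `p ϖ`) solves 3SUM-Indexing with
unknown inputs, with advantage `δ` and `t` probes, for arrays `A`, `B` of at most `n` integers from
`0, …, N`: if `z` is a sum then the answer is yes with probability at least `1 / 2 + δ` as soon as
the elements of the arrays are known (for all other integers it may be unknown whether they belong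
to the arrays), and if `z` is not a sum then the answer is not yes with probability at least
`1 / 2 + δ` if everything is known, and at most `t` places are read on the average if only the
elements of the arrays are known. -/
def KSolves (n N : ℕ) {Ω : Type} [Fintype Ω] (p : Ω → ℝ) (S : Ω → KDS D s r) (δ t : ℝ) : Prop :=
  (∀ ϖ, 0 ≤ p ϖ) ∧ ∑ ϖ, p ϖ = 1 ∧
  ∀ A B : Finset ℤ, A.card ≤ n → B.card ≤ n → (∀ x ∈ A, 0 ≤ x ∧ x ≤ N) →
    (∀ y ∈ B, 0 ≤ y ∧ y ≤ N) → ∀ z : ℤ,
      (IsSum A B z → 1 / 2 + δ ≤
        ∑ ϖ ∈ univ.filter (fun ϖ => (S ϖ).out (truths (· ∈ A)) (truths (· ∈ B)) z), p ϖ) ∧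
      (¬ IsSum A B z → 1 / 2 + δ ≤
        ∑ ϖ ∈ univ.filter (fun ϖ => ¬ (S ϖ).out (full (· ∈ A)) (full (· ∈ B)) z), p ϖ) ∧
      (¬ IsSum A B z →
        ∑ ϖ, p ϖ * ((S ϖ).cost (truths (· ∈ A)) (truths (· ∈ B)) z : ℝ) ≤ t)

theorem KDS.mem_mono (S : KDS D s r) {P P' Q Q' : Know ℤ} (h1 : Le P P') (h2 : Le Q Q') :
    S.mem P Q ≤ S.mem P' Q' := by
  rintro (c | c | c)
  · exact S.cell_mono c _ _ _ _ h1 h2
  · exact S.free1_mono c _ _ h1
  · exact S.free2_mono c _ _ h2

/-- everything is known to be in both arrays -/
noncomputable def KDS.top (S : KDS D s r) : Place s r → D :=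
  S.mem (truths fun _ : ℤ => True) (truths fun _ : ℤ => True)

theorem KDS.mem_le_top (S : KDS D s r) (a b : ℤ → Prop) : S.mem (truths a) (truths b) ≤ S.top :=
  S.mem_mono (truths_le_truths fun _ _ => trivial) (truths_le_truths fun _ _ => trivial)

theorem KDS.exists_real (hD : TreeLike D) (S : KDS D s r) :
    ∃ S' : SumDS s r, ∀ (A B : Finset ℤ) (z : ℤ),
      (S'.out A B z ↔ S.out (truths (· ∈ A)) (truths (· ∈ B)) z) ∧
      S'.cost A B z = S.cost (truths (· ∈ A)) (truths (· ∈ B)) z := by
  choose f hf using fun c : Place s r => hD (S.top c)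
  have hle : ∀ (a b : ℤ → Prop) (c : Place s r), S.mem (truths a) (truths b) c ≤ S.top c :=
    fun a b c => S.mem_le_top a b c
  let S' : SumDS s r :=
    { cell := fun c A B => f (.inl c) (S.cell c (truths (· ∈ A)) (truths (· ∈ B)))
      cell_mono := fun c A A' B B' hA hB =>
        (hf (.inl c) _ (hle _ _ (.inl c)) _ (hle _ _ (.inl c))).1
          (S.cell_mono c _ _ _ _ (truths_le_truths fun _ h => hA h)
            (truths_le_truths fun _ h => hB h))
      free1 := fun c A => f (.inr (.inl c)) (S.free1 c (truths (· ∈ A)))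
      free1_mono := fun c A A' hA =>
        (hf (.inr (.inl c)) _ (hle _ (fun _ => True) (.inr (.inl c))) _
          (hle _ (fun _ => True) (.inr (.inl c)))).1
          (S.free1_mono c _ _ (truths_le_truths fun _ h => hA h))
      free2 := fun c B => f (.inr (.inr c)) (S.free2 c (truths (· ∈ B)))
      free2_mono := fun c B B' hB =>
        (hf (.inr (.inr c)) _ (hle (fun _ => True) _ (.inr (.inr c))) _
          (hle (fun _ => True) _ (.inr (.inr c)))).1
          (S.free2_mono c _ _ (truths_le_truths fun _ h => hB h))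
      reads := fun z M => Rd S.top f (S.reads z) M
      accept := fun z M => Acc S.top f (S.accept z) M
      accept_mono := fun z M M' h ha => acc_mono h ha
      accept_reads := fun z M M' h =>
        acc_reads hf (S.accept_mono z) (fun N N1 hN => S.accept_reads z N N1 hN) h }
  have hmem : ∀ (A B : Finset ℤ) (c : Place s r),
      S'.mem A B c = f c (S.mem (truths (· ∈ A)) (truths (· ∈ B)) c) := by
    rintro A B (c | c | c) <;> rfl
  refine ⟨S', fun A B z => ⟨?_, ?_⟩⟩
  · exact acc_iff hf (S.accept_mono z) (hle _ _)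
      (R := S.reads z (S.mem (truths (· ∈ A)) (truths (· ∈ B))))
      (fun M1 h1 => S.accept_reads z _ M1 h1) (fun c _ => hmem A B c)
  · show (Rd S.top f (S.reads z) (S'.mem A B)).card = _
    rw [rd_eq hf (S.reads z) (hle _ _) (hmem A B)]
    rfl

/-- the lower bound -/
theorem lowerK (hD : TreeLike D) {n N : ℕ} {δ t : ℝ} (hδ : 0 < δ) (hδ2 : δ ≤ 1 / 2) (ht : 1 ≤ t)
    (hnt : 400 * t * Real.logb 2 ((n + r) / δ) ≤ δ * n) (hN : n ^ 2 ≤ N)
    {Ω : Type} [Fintype Ω] (p : Ω → ℝ) (S : Ω → KDS D s r) (hS : KSolves n N p S δ t) :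
    δ ^ 2 * (n : ℝ) ^ 2 ≤ 1600 * s * t * Real.logb 2 ((n + r) / δ) := by
  obtain ⟨hp, hp1, h⟩ := hS
  choose S' hS' using fun ϖ => (S ϖ).exists_real hD
  refine sum_lower hδ hδ2 ht hnt hN p S' ⟨hp, hp1, fun A B hA hB hA2 hB2 z => ?_⟩
  obtain ⟨h1, h2, h3⟩ := h A B hA hB hA2 hB2 z
  constructor
  · by_cases hs : IsSum A B z
    · refine (h1 hs).trans (sum_le_sum_of_subset_of_nonneg ?_ fun ϖ _ _ => hp ϖ)
      intro ϖ hϖ
      rw [mem_filter] at hϖ ⊢
      exact ⟨hϖ.1, ⟨fun _ => hs, fun _ => ((hS' ϖ A B z).1).2 hϖ.2⟩⟩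
    · refine (h2 hs).trans (sum_le_sum_of_subset_of_nonneg ?_ fun ϖ _ _ => hp ϖ)
      intro ϖ hϖ
      rw [mem_filter] at hϖ ⊢
      refine ⟨hϖ.1, ⟨fun ho => ?_, fun hh => absurd hh hs⟩⟩
      exact absurd ((S ϖ).accept_mono z _ _ ((S ϖ).mem_mono (truths_le_full _)
        (truths_le_full _)) (((hS' ϖ A B z).1).1 ho)) hϖ.2
  · intro hs
    refine le_trans (le_of_eq ?_) (h3 hs)
    refine sum_congr rfl fun ϖ _ => ?_
    rw [(hS' ϖ A B z).2]

end

end Pool.Agent.H698.UD
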