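import Pool.Agent.H698.UD.Sum

set_option autoImplicit false

/-! # 3SUM-Indexing with partial knowledge about the arrays: the table of all sums (helper698) -/

open scoped Classical
open Finset

namespace Pool.Agent.H698.UD

open Pool.Agent.H698.HF
open Pool.Agent.H525R4.Mono (Place IsSum)
open Flat (unknown known)

/-- `z` is known to be a sum -/
def SumT (N : ℕ) (P Q : Know ℤ) (z : ℤ) : Prop :=
  ∃ x y : ℤ, 0 ≤ x ∧ x ≤ N ∧ 0 ≤ y ∧ y ≤ N ∧ x + y = z ∧ P x = some true ∧ Q y = some true

/-- `z` is known not to be a sum -/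
def SumF (N : ℕ) (P Q : Know ℤ) (z : ℤ) : Prop :=
  ∀ x y : ℤ, 0 ≤ x → x ≤ N → 0 ≤ y → y ≤ N → x + y = z → P x = some false ∨ Q y = some false

theorem le_some {E : Type} {P P' : Know E} (h : Le P P') {e : E} {b : Bool} (he : P e = some b) :
    P' e = some b := by
  rcases h e with h1 | h1
  · rw [he] at h1; exact absurd h1 (by simp)
  · rw [← h1]; exact he

theorem sumT_mono {N : ℕ} {P P' Q Q' : Know ℤ} (h1 : Le P P') (h2 : Le Q Q') {z : ℤ}
    (h : SumT N P Q z) : SumT N P' Q' z := by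
  obtain ⟨x, y, a1, a2, a3, a4, a5, a6, a7⟩ := h
  exact ⟨x, y, a1, a2, a3, a4, a5, le_some h1 a6, le_some h2 a7⟩

theorem sumF_mono {N : ℕ} {P P' Q Q' : Know ℤ} (h1 : Le P P') (h2 : Le Q Q') {z : ℤ}
    (h : SumF N P Q z) : SumF N P' Q' z := by
  intro x y a1 a2 a3 a4 a5
  exact (h x y a1 a2 a3 a4 a5).imp (le_some h1) (le_some h2)

theorem not_both {N : ℕ} {P Q : Know ℤ} {z : ℤ} (h1 : SumT N P Q z) (h2 : SumF N P Q z) :
    False := by
  obtain ⟨x, y, a1, a2, a3, a4, a5, a6, a7⟩ := h1
  rcases h2 x y a1 a2 a3 a4 a5 with h | h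
  · rw [a6] at h; exact absurd h (by simp)
  · rw [a7] at h; exact absurd h (by simp)

/-- the entry of the table -/
noncomputable def entry (N : ℕ) (P Q : Know ℤ) (z : ℤ) : Flat Bool :=
  if SumT N P Q z then known true else if SumF N P Q z then known false else unknown

theorem entry_true {N : ℕ} {P Q : Know ℤ} {z : ℤ} : entry N P Q z = known true ↔ SumT N P Q z := by
  unfold entry
  split_ifs with h1 h2 <;> simp [h1]

theorem entry_false {N : ℕ} {P Q : Know ℤ} {z : ℤ} :
    entry N P Q z = known false ↔ SumF N P Q z := by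
  unfold entry
  split_ifs with h1 h2
  · simp only [false_iff, reduceCtorEq, Flat.known.injEq, Bool.true_eq_false]
    exact fun h => not_both h1 h
  · simp [h2]
  · simp [h2]

/-- the table of all sums -/
noncomputable def table (N : ℕ) : KDS (Flat Bool) (2 * N + 1) 0 where
  cell c P Q := entry N P Q (c.val : ℤ)
  cell_mono := by
    intro c P P' Q Q' h1 h2
    rw [Flat.le_iff]
    rcases hx : entry N P Q (c.val : ℤ) with _ | (_ | _)
    · left; rfl
    · right
      exact (entry_false.2 (sumF_mono h1 h2 (entry_false.1 hx))).symm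
    · right
      exact (entry_true.2 (sumT_mono h1 h2 (entry_true.1 hx))).symm
  free1 c _ := c.elim0
  free1_mono c := c.elim0
  free2 c _ := c.elim0
  free2_mono c := c.elim0
  reads z _ := univ.filter fun c => ∃ i : Fin (2 * N + 1), c = .inl i ∧ (i.val : ℤ) = z
  accept z M := ∃ i : Fin (2 * N + 1), (i.val : ℤ) = z ∧ M (.inl i) = known true
  accept_mono := by
    rintro z M M' h ⟨i, h1, h2⟩
    refine ⟨i, h1, ?_⟩
    have h3 := h (.inl i)
    rw [h2, Flat.le_iff] at h3
    rcases h3 with h3 | h3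
    · exact absurd h3 (by simp)
    · exact h3.symm
  accept_reads := by
    intro z M M' h
    constructor
    · rintro ⟨i, h1, h2⟩
      exact ⟨i, h1, by rw [← h (.inl i) (by simp [h1]), h2]⟩
    · rintro ⟨i, h1, h2⟩
      exact ⟨i, h1, by rw [h (.inl i) (by simp [h1]), h2]⟩

theorem sumT_truths {N : ℕ} {A B : Finset ℤ} (hA : ∀ x ∈ A, 0 ≤ x ∧ x ≤ N)
    (hB : ∀ y ∈ B, 0 ≤ y ∧ y ≤ N) {z : ℤ} (h : IsSum A B z) :
    SumT N (truths (· ∈ A)) (truths (· ∈ B)) z := by
  obtain ⟨x, hx, y, hy, hxy⟩ := h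
  refine ⟨x, y, (hA x hx).1, (hA x hx).2, (hB y hy).1, (hB y hy).2, hxy, ?_, ?_⟩
  · unfold truths; rw [if_pos hx]
  · unfold truths; rw [if_pos hy]

theorem full_some {E : Type} {b : E → Prop} {e : E} {c : Bool} :
    full b e = some c ↔ (b e ↔ c = true) := by
  unfold full
  by_cases h : b e <;> cases c <;> simp [h]

theorem index {N : ℕ} {z : ℤ} (h0 : 0 ≤ z) (h1 : z ≤ 2 * N) :
    ∃ i : Fin (2 * N + 1), (i.val : ℤ) = z :=
  ⟨⟨z.toNat, by omega⟩, by simp [h0]⟩

theorem table_solves (n N : ℕ) :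
    KSolves n N (fun _ : Unit => 1) (fun _ => table N) (1 / 2) 1 := by
  refine ⟨fun _ => zero_le_one, by simp, fun A B _ _ hA hB z => ⟨fun hs => ?_, fun hs => ?_,
    fun _ => ?_⟩⟩
  · have h : (table N).out (truths (· ∈ A)) (truths (· ∈ B)) z := by
      have hs' := hs
      obtain ⟨x, hx, y, hy, hxy⟩ := hs
      have h1 := hA x hx
      have h2 := hB y hy
      obtain ⟨i, hi⟩ := index (N := N) (z := z) (by omega) (by omega)
      refine ⟨i, hi, ?_⟩
      show entry N _ _ (i.val : ℤ) = known true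
      rw [entry_true, hi]
      exact sumT_truths hA hB hs'
    rw [filter_true_of_mem (fun _ _ => h)]
    norm_num
  · have h : ¬ (table N).out (full (· ∈ A)) (full (· ∈ B)) z := by
      rintro ⟨i, hi, h1⟩
      change entry N _ _ (i.val : ℤ) = known true at h1
      rw [entry_true, hi] at h1
      obtain ⟨x, y, -, -, -, -, a5, a6, a7⟩ := h1
      exact hs ⟨x, (full_some.1 a6).2 rfl, y, (full_some.1 a7).2 rfl, a5⟩
    rw [filter_true_of_mem (fun _ _ => h)]
    norm_num
  · have h : (table N).cost (truths (· ∈ A)) (truths (· ∈ B)) z ≤ 1 := by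
      show (univ.filter _).card ≤ 1
      rw [card_le_one]
      intro a ha b hb
      rw [mem_filter] at ha hb
      obtain ⟨-, i, rfl, hi⟩ := ha
      obtain ⟨-, j, rfl, hj⟩ := hb
      have : i = j := by
        apply Fin.ext
        omega
      rw [this]
    simp only [univ_unique, sum_singleton, one_mul]
    exact_mod_cast h

/-- the arrays `A`, `B` of integers from `0, …, N` agree with the knowledge -/
def Fits (N : ℕ) (P : Know ℤ) (A : Finset ℤ) : Prop :=
  (∀ x ∈ A, 0 ≤ x ∧ x ≤ N) ∧ Le P (full (· ∈ A))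

theorem table_exact (N : ℕ) (P Q : Know ℤ) (hP : ∃ A, Fits N P A) (hQ : ∃ B, Fits N Q B)
    (c : Fin (2 * N + 1)) :
    ((table N).cell c P Q = known true ↔
      ∀ A B, Fits N P A → Fits N Q B → IsSum A B (c.val : ℤ)) ∧
    ((table N).cell c P Q = known false ↔
      ∀ A B, Fits N P A → Fits N Q B → ¬ IsSum A B (c.val : ℤ)) := by
  have hrange : ∀ (P : Know ℤ), (∃ A, Fits N P A) → ∀ e, P e = some true → 0 ≤ e ∧ e ≤ N := by
    rintro P ⟨A, h1, h2⟩ e he
    exact h1 e ((full_some.1 (le_some h2 he)).2 rfl)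
  have hmin : ∀ (P : Know ℤ), (∃ A, Fits N P A) →
      Fits N P ((Icc (0 : ℤ) N).filter fun x => P x = some true) := by
    intro P h
    refine ⟨fun x hx => by simpa using (mem_filter.1 hx).1, fun e => ?_⟩
    rcases hP : P e with _ | b
    · left; rfl
    · right
      symm
      rw [full_some]
      have := hrange P h e
      cases b
      · simp [hP]
      · simp [hP, this hP]
  have hmax : ∀ (P : Know ℤ), (∃ A, Fits N P A) →
      Fits N P ((Icc (0 : ℤ) N).filter fun x => P x ≠ some false) := by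
    intro P h
    refine ⟨fun x hx => by simpa using (mem_filter.1 hx).1, fun e => ?_⟩
    rcases hP : P e with _ | b
    · left; rfl
    · right
      symm
      rw [full_some]
      have := hrange P h e
      cases b
      · simp [hP]
      · simp [hP, this hP]
  constructor
  · show entry N P Q (c.val : ℤ) = known true ↔ _
    rw [entry_true]
    constructor
    · rintro ⟨x, y, a1, a2, a3, a4, a5, a6, a7⟩ A B hA hB
      exact ⟨x, (full_some.1 (le_some hA.2 a6)).2 rfl, y, (full_some.1 (le_some hB.2 a7)).2 rfl, a5⟩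
    · intro h
      obtain ⟨x, hx, y, hy, hxy⟩ := h _ _ (hmin P hP) (hmin Q hQ)
      rw [mem_filter, mem_Icc] at hx hy
      exact ⟨x, y, hx.1.1, hx.1.2, hy.1.1, hy.1.2, hxy, hx.2, hy.2⟩
  · show entry N P Q (c.val : ℤ) = known false ↔ _
    rw [entry_false]
    constructor
    · rintro h A B hA hB ⟨x, hx, y, hy, hxy⟩
      have h1 := hA.1 x hx
      have h2 := hB.1 y hy
      rcases h x y h1.1 h1.2 h2.1 h2.2 hxy with h3 | h3
      · exact absurd ((full_some.1 (le_some hA.2 h3)).1 hx) (by simp)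
      · exact absurd ((full_some.1 (le_some hB.2 h3)).1 hy) (by simp)
    · intro h x y a1 a2 a3 a4 a5
      by_contra hc
      push Not at hc
      refine h _ _ (hmax P hP) (hmax Q hQ) ⟨x, ?_, y, ?_, a5⟩
      · rw [mem_filter, mem_Icc]; exact ⟨⟨a1, a2⟩, hc.1⟩
      · rw [mem_filter, mem_Icc]; exact ⟨⟨a3, a4⟩, hc.2⟩

end Pool.Agent.H698.UD
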